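import Pool.Agent.CYE.StmtsF

set_option autoImplicit false

open Polynomial IsLocalRing

namespace Pool.Agent.CYE.H76

open Pool.Agent.CYD Pool.Agent.CYE

/-- If `f` divides `Φ ^ e Φ'` then the degree of `f` is at most the sum of the multiplicities at
the roots of unity plus the degree of `Φ'`. -/
theorem deg_le {L : Type} [Field L] {β : Type} (S : Finset β) (e : β → L)
    (he : Function.Injective e) (f Φ D : L[X]) (k : ℕ) (hf : f ≠ 0) (hD : D ≠ 0)
    (hdvd : f ∣ Φ ^ k * D) (R : Finset L) (hΦ : Φ = ∏ μ ∈ R, (X - C μ))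
    (hR : ∀ μ ∈ R, ∃ b ∈ S, e b = μ) :
    f.natDegree ≤ ∑ b ∈ S, rootMultiplicity (e b) f + D.natDegree := by
  classical
  have hco : ∀ b ∈ S, ∀ b' ∈ S, b ≠ b' → IsCoprime ((X - C (e b)) ^ rootMultiplicity (e b) f)
      ((X - C (e b')) ^ rootMultiplicity (e b') f) := by
    intro b _ b' _ hne
    exact (Polynomial.pairwise_coprime_X_sub_C he hne).pow
  have hP : (∏ b ∈ S, (X - C (e b)) ^ rootMultiplicity (e b) f) ∣ f := by
    apply Finset.prod_dvd_of_coprime
    · intro b hb b' hb' hne
      exact hco b hb b' hb' hne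
    · intro b _
      exact pow_rootMultiplicity_dvd f (e b)
  obtain ⟨G, hG⟩ := hP
  have hG0 : G ≠ 0 := by
    rintro rfl
    exact hf (by rw [hG, mul_zero])
  have hnG : ∀ b ∈ S, ¬ (X - C (e b)) ∣ G := by
    intro b hb hd
    have h1 : (X - C (e b)) ^ rootMultiplicity (e b) f ∣
        ∏ b ∈ S, (X - C (e b)) ^ rootMultiplicity (e b) f := Finset.dvd_prod_of_mem _ hb
    have h2 : (X - C (e b)) ^ (rootMultiplicity (e b) f + 1) ∣ f := by
      rw [pow_succ]
      conv_rhs => rw [hG]
      exact mul_dvd_mul h1 hd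
    have h3 := (le_rootMultiplicity_iff hf).mpr h2
    omega
  have hcop : IsCoprime G (Φ ^ k) := by
    apply IsCoprime.pow_right
    rw [hΦ]
    apply IsCoprime.prod_right
    intro μ hμ
    obtain ⟨b, hb, rfl⟩ := hR μ hμ
    exact ((irreducible_X_sub_C (e b)).coprime_iff_not_dvd.mpr (hnG b hb)).symm
  have hGD : G ∣ D := hcop.dvd_of_dvd_mul_left (dvd_trans ⟨_, by rw [mul_comm]; exact hG⟩ hdvd)
  have h4 : G.natDegree ≤ D.natDegree := natDegree_le_of_dvd hGD hD
  have h5 : (∏ b ∈ S, (X - C (e b)) ^ rootMultiplicity (e b) f).natDegree =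
      ∑ b ∈ S, rootMultiplicity (e b) f := by
    rw [natDegree_prod_of_monic]
    · apply Finset.sum_congr rfl
      intro b _
      rw [natDegree_pow, natDegree_X_sub_C, mul_one]
    · intro b _
      exact (monic_X_sub_C _).pow _
  have h6 : (∏ b ∈ S, (X - C (e b)) ^ rootMultiplicity (e b) f) ≠ 0 := by
    intro h0
    exact hf (by rw [hG, h0, zero_mul])
  have h7 : f.natDegree = (∏ b ∈ S, (X - C (e b)) ^ rootMultiplicity (e b) f).natDegree +
      G.natDegree := by
    conv_lhs => rw [hG]
    exact natDegree_mul h6 hG0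
  rw [h7, h5]
  omega

theorem sum_le {β : Type} (S : Finset β) (s j : β → ℕ) (p t : ℕ) (P : β → Prop)
    [DecidablePred P] (h1 : ∀ b ∈ S, P b → s b ≤ p) (h2 : ∀ b ∈ S, ¬ P b → s b ≤ j b)
    (h3 : ∑ b ∈ S, j b ≤ t) : ∑ b ∈ S, s b ≤ p * (S.filter P).card + t := by
  calc ∑ b ∈ S, s b ≤ ∑ b ∈ S, ((if P b then p else 0) + j b) := by
        apply Finset.sum_le_sum
        intro b hb
        split_ifs with hP
        · have := h1 b hb hP
          omega
        · have := h2 b hb hP
          omega
    _ = p * (S.filter P).card + ∑ b ∈ S, j b := by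
        rw [Finset.sum_add_distrib, ← Finset.sum_filter, Finset.sum_const, smul_eq_mul, mul_comm]
    _ ≤ _ := by omega

theorem half (hF : FcmStmt) (hB : BafStmt) (hE : EvlStmt)
    (ι : Type) [Fintype ι] [DecidableEq ι] (q : ι → ℕ) [∀ i, Fact (q i).Prime] (p m : ℕ)
    (g h g' h' : ℤ[X]) (L : Type) [Field L] (a : L) (α : ι → L) (S : Sit q p m g' h' L a α)
    (F : Fm p m g h) :
    g.natDegree ≤ ∑ b ∈ Un q, rootMultiplicity (ev α b) (red L g) + m.totient ∧
    ∀ b ∈ Un q, IsPrimitiveRoot (ev α b) m ∧ rootMultiplicity (ev α b) (red L g) ≤ p := by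
  classical
  have := S.chr
  obtain ⟨f1, -, -, f4, -, f6, -, f8, -, f10, -⟩ := hF p m g h F L
  obtain ⟨hp5, -, -, hm2, -⟩ := hB p m g h F
  obtain ⟨-, -, -, -, e5, e6⟩ := hE ι q L α S.pri S.inj
  have hm0 : 0 < m := by have := F.hm; omega
  have hmz : NeZero m := ⟨hm0.ne'⟩
  have hprim : ∀ b ∈ Un q, IsPrimitiveRoot (ev α b) m := by
    intro b hb
    have := e6 b (by simpa [Un] using hb)
    rwa [S.prod] at this
  have hgz : red L g ≠ 0 := by
    intro h0
    rw [h0] at f8
    exact f8 (by simp)
  have hhz : red L h ≠ 0 := by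
    intro h0
    rw [h0] at f10
    exact f10 (by simp)
  have hDz : derivative (cyclotomic m L) ≠ 0 := by
    intro h0
    rw [h0, natDegree_zero] at f4
    omega
  have hdvd : red L g ∣ cyclotomic m L ^ (p - 2) * derivative (cyclotomic m L) := by
    rw [← dvd_neg, ← f1]
    exact dvd_mul_right _ _
  refine ⟨?_, ?_⟩
  · have key := deg_le (Un q) (ev α) (fun b b' hb => e5 b b' hb) (red L g) (cyclotomic m L)
      (derivative (cyclotomic m L)) (p - 2) hgz hDz hdvd (primitiveRoots m L)
      (cyclotomic_eq_prod_X_sub_primitiveRoots S.prim) (by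
        intro μ hμ
        have hμ' := (mem_primitiveRoots hm0).mp hμ
        obtain ⟨k, _, hk, rfl⟩ := S.prim.isPrimitiveRoot_iff.mp hμ'
        refine ⟨fun i => ((k : ℕ) : ZMod (q i)), ?_, (S.evk k).symm⟩
        simp only [Un, Finset.mem_filter, Finset.mem_univ, true_and]
        intro i h0
        rw [ZMod.natCast_eq_zero_iff] at h0
        have h1 : q i ∣ m := by
          rw [← S.prod]
          exact Finset.dvd_prod_of_mem _ (Finset.mem_univ i)
        have h2 := Nat.dvd_gcd h0 h1
        rw [hk] at h2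
        exact (S.hq i).one_lt.ne' (Nat.dvd_one.mp h2))
    rw [f6] at key
    omega
  · intro b hb
    refine ⟨hprim b hb, ?_⟩
    have hx := hprim b hb
    have h1 : rootMultiplicity (ev α b) (red L g) ≤
        rootMultiplicity (ev α b) (red L g * red L h) := by
      rw [rootMultiplicity_mul (mul_ne_zero hgz hhz)]
      omega
    have hcy : cyclotomic m L ≠ 0 := cyclotomic_ne_zero m L
    have hsep : rootMultiplicity (ev α b) (cyclotomic m L) ≤ 1 ∧
        ¬ (derivative (cyclotomic m L)).IsRoot (ev α b) := by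
      have hc : cyclotomic m L = ∏ μ ∈ primitiveRoots m L, (X - C μ) :=
        cyclotomic_eq_prod_X_sub_primitiveRoots S.prim
      have hsepa : (cyclotomic m L).Separable := by
        rw [hc]
        exact separable_prod_X_sub_C_iff'.mpr (fun x _ y _ hxy => hxy)
      refine ⟨rootMultiplicity_le_one_of_separable hsepa _, ?_⟩
      intro hr
      have hr' : (cyclotomic m L).IsRoot (ev α b) := by
        rw [hc, IsRoot.def, eval_prod]
        apply Finset.prod_eq_zero ((mem_primitiveRoots hm0).mpr hx)
        simp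
      obtain ⟨u, v, huv⟩ := hsepa
      have := congrArg (eval (ev α b)) huv
      rw [eval_add, eval_mul, eval_mul, hr.eq_zero, hr'.eq_zero] at this
      simp at this
    have h2 : rootMultiplicity (ev α b) (red L g * red L h) ≤ p := by
      have hne : red L g * red L h ≠ 0 := mul_ne_zero hgz hhz
      by_contra hlt
      push Not at hlt
      have h3 := (le_rootMultiplicity_iff hne).mp hlt.le
      rw [f1, dvd_neg] at h3
      have h4 := (le_rootMultiplicity_iff (mul_ne_zero (pow_ne_zero _ hcy) hDz)).mpr h3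
      rw [rootMultiplicity_mul (mul_ne_zero (pow_ne_zero _ hcy) hDz),
        rootMultiplicity_eq_zero hsep.2] at h4
      have h5 : rootMultiplicity (ev α b) (cyclotomic m L ^ (p - 2)) ≤ p - 2 := by
        have h6 : ∀ k : ℕ, rootMultiplicity (ev α b) (cyclotomic m L ^ k) ≤ k := by
          intro k
          induction k with
          | zero => simp
          | succ k ih =>
            rw [pow_succ, rootMultiplicity_mul (mul_ne_zero (pow_ne_zero _ hcy) hcy)]
            have := hsep.1
            omega
        exact h6 _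
      omega
    omega

theorem dgb (hB : BafStmt) (hF : FcmStmt) (hM : MinStmt) (hE : EvlStmt) (hC : CjmStmt) :
    DgbStmt := by
  intro ι _ _ q _ p m g h L _ a α S
  classical
  have := S.chr
  obtain ⟨hc, -⟩ := hC ι q p m g h L a α S
  have hm2 := (hB p m g h S.F)
  constructor
  · obtain ⟨k1, k2⟩ := half hF hB hE ι q p m g h g h L a α S S.F
    have := sum_le (Un q) (fun b => rootMultiplicity (ev α b) (red L g))
      (fun b => jm m (ev α b)) p m.totient (fun b => ty g h (ev α b) ≠ false)
      (fun b hb _ => (k2 b hb).2) (fun b hb hn => by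
        have h1 := hM p m g h S.F L (ev α b) (k2 b hb).1
        have h2 : ty g h (ev α b) = false := not_not.mp hn
        simp only [ty, decide_eq_false_iff_not, not_lt] at h2
        rw [min_eq_left h2] at h1
        exact h1) hc
    omega
  · obtain ⟨k1, k2⟩ := half hF hB hE ι q p m h g g h L a α S S.F.swap
    have := sum_le (Un q) (fun b => rootMultiplicity (ev α b) (red L h))
      (fun b => jm m (ev α b)) p m.totient (fun b => ty g h (ev α b) ≠ true)
      (fun b hb _ => (k2 b hb).2) (fun b hb hn => by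
        have h1 := hM p m g h S.F L (ev α b) (k2 b hb).1
        have h2 : ty g h (ev α b) = true := not_not.mp hn
        simp only [ty, decide_eq_true_eq] at h2
        rw [min_eq_right h2.le] at h1
        exact h1) hc
    omega

end Pool.Agent.CYE.H76
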